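import Pool.Agent.Helper43.UN.GoalsH
import Pool.Agent.Helper55.UW.RL

/-!
# Packet X8 of the project UN: the exceptional shape with small `m 8`
-/

set_option autoImplicit false

namespace Pool.Agent.Helper77.UN

open Finset
open Pool.Agent.Lead.Sh
open Pool.Agent.Helper43.UN
open Pool.Agent.Helper18.UW (lg OkU)
open Helper18.Cusp (Red rr kap GoodFor Concl tr tr_lt tr_ge red_tr cubic_finish DS mem_DS)

/-- renumbering of the points `8, …, s - 1` -/
theorem okU_shift {D : Finset (ℕ × ℕ)} {m : ℕ → ℕ} {s : ℕ}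
    (h : OkU D (fun i => m (i + 8)) (range (s - 8))) : OkU D m (Ico 8 s) := by
  have hsum : ∑ k ∈ Ico 8 s, (m k + 1).choose 2 =
      ∑ k ∈ range (s - 8), ((fun i => m (i + 8)) k + 1).choose 2 := by
    rw [sum_Ico_eq_sum_range]
    refine sum_congr rfl fun k _ => ?_
    simp only [add_comm 8 k]
  obtain ⟨h1, h2⟩ := Pool.Agent.Helper55.UW.rx_gen (D := D) (m := fun i => m (i + 8)) (m' := m)
    (s := range (s - 8)) (t := Ico 8 s) (f := fun k => k + 8) (g := fun k => k - 8)
    (by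
      intro k hk
      rw [mem_range] at hk
      refine ⟨mem_Ico.2 ⟨by omega, by omega⟩, by omega, rfl⟩)
    (by
      intro k hk
      rw [mem_Ico] at hk
      refine ⟨mem_range.2 (by omega), by omega⟩)
  unfold OkU at h ⊢
  rw [hsum]
  rcases h with ⟨h3, h4⟩ | ⟨h3, h4⟩
  · exact Or.inl ⟨h3, h2 h4⟩
  · exact Or.inr ⟨h3, h1 h4⟩

/-- the numbers -/
theorem lg_bound {a b x : ℕ} (hb : 1 ≤ b) (hab : a ≤ 2 * b + 1)
    (hx : 2 ^ 405 * lg b ^ 3 * b ≤ x) : 2 ^ 400 * lg a ^ 3 * a + 1 ≤ x := by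
  have h1 : lg a ≤ lg b + 2 := by
    unfold lg
    have h2 : Nat.log 2 a ≤ Nat.log 2 (b * 2 * 2) := Nat.log_mono_right (by omega)
    rw [Nat.log_mul_base (by norm_num) (by omega), Nat.log_mul_base (by norm_num) (by omega)] at h2
    omega
  have h10 : 10 ≤ lg b := by
    unfold lg
    omega
  obtain ⟨L, hL⟩ : ∃ L, L = lg b := ⟨_, rfl⟩
  rw [← hL] at h1 h10 hx
  have h2 : lg a ^ 3 ≤ 2 * L ^ 3 := by
    refine (Nat.pow_le_pow_left h1 3).trans ?_
    nlinarith [Nat.mul_le_mul h10 h10, Nat.mul_le_mul (Nat.mul_le_mul h10 h10) h10,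
      Nat.mul_le_mul h10 (Nat.mul_le_mul h10 le_rfl : 10 * L ≤ L * L)]
  obtain ⟨K, hK⟩ : ∃ K : ℕ, K = 2 ^ 400 := ⟨_, rfl⟩
  have h405 : 2 ^ 405 = 32 * K := by
    rw [hK, show 405 = 5 + 400 from rfl, pow_add]
    norm_num
  have hK1 : 1 ≤ K := by
    rw [hK]
    exact Nat.one_le_two_pow
  rw [h405] at hx
  rw [← hK]
  have h3 : K * lg a ^ 3 * a ≤ K * (2 * L ^ 3) * (3 * b) :=
    Nat.mul_le_mul (Nat.mul_le_mul le_rfl h2) (by omega)
  have h4 : K * (2 * L ^ 3) * (3 * b) = 6 * (K * L ^ 3 * b) := by ring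
  have h5 : 32 * K * L ^ 3 * b = 32 * (K * L ^ 3 * b) := by ring
  have h6 : 1 ≤ K * L ^ 3 * b :=
    Nat.one_le_iff_ne_zero.2 (by positivity)
  omega

/-- **Packet X8.** -/
theorem goalX8 : GoalX8 := by
  intro hU hXC hT s m d hm hs h9 hd h7 h8 h80 hx
  have hm0 : 0 < m 0 := by omega
  have e1 : m 1 = m 0 := le_antisymm (hm (by norm_num)) (h7 ▸ hm (by norm_num))
  have e2 : m 2 = m 0 := le_antisymm (hm (by norm_num)) (h7 ▸ hm (by norm_num))
  have e3 : m 3 = m 0 := le_antisymm (hm (by norm_num)) (h7 ▸ hm (by norm_num))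
  have e4 : m 4 = m 0 := le_antisymm (hm (by norm_num)) (h7 ▸ hm (by norm_num))
  have e5 : m 5 = m 0 := le_antisymm (hm (by norm_num)) (h7 ▸ hm (by norm_num))
  have e6 : m 6 = m 0 := le_antisymm (hm (by norm_num)) (h7 ▸ hm (by norm_num))
  have hs8 : ∑ i ∈ range 8, m i = 8 * m 0 := by
    simp only [sum_range_succ, sum_range_zero, zero_add]
    omega
  obtain ⟨hsum, hR⟩ := red_tr hm (d := d) (by omega) (j := 8) (by norm_num) (by norm_num)
    (by rw [hs8]; omega)
  have a0 : tr m 8 0 = m 0 := tr_lt (by norm_num)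
  have a7 : tr m 8 7 = m 0 := by rw [tr_lt (by norm_num), h7]
  have hk : kap d (tr m 8) = m 0 := by
    unfold kap
    rw [hsum, hs8]
    omega
  have hrr := (hT d (tr m 8) hR).2.2.2 (by rw [a0]; exact hd) (by rw [a0, a7])
  rw [a0, hk] at hrr
  have hDS : DS d (tr m 8) (d + 1) = insert (0, m 0) (triD 0 (m 0 - 1)) := by
    ext x
    rw [mem_DS, hrr, mem_insert, mem_triD]
    constructor
    · rintro ⟨h1, h2⟩
      split_ifs at h2 with c1 c2
      · right
        rw [lt_min_iff] at h2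
        omega
      · left
        ext
        · simp only
          omega
        · exact c2
      · omega
    · rintro (rfl | ⟨-, h2⟩)
      · refine ⟨by simp only; omega, ?_⟩
        simp
      · have c1 : x.2 < m 0 := by omega
        refine ⟨by omega, ?_⟩
        rw [if_pos c1, lt_min_iff]
        omega
  apply cubic_finish s m d 8 hm hs (by norm_num) hR
  rw [hDS]
  have hb := lg_bound h9 h8 hx
  have hanti : Antitone (fun i => m (i + 8)) := fun i j hij => hm (by omega)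
  have hzero : ∀ i, s - 8 ≤ i → (fun i => m (i + 8)) i = 0 := fun i hi => hs _ (by omega)
  apply hXC (m 0) m (Ico 8 s) hm0
  · exact okU_shift (hU (s - 8) (fun i => m (i + 8)) (m 0) hanti hzero (by
      simp only [zero_add]
      omega))
  · exact okU_shift (hU (s - 8) (fun i => m (i + 8)) (m 0 - 1) hanti hzero (by
      simp only [zero_add]
      omega))

end Pool.Agent.Helper77.UN
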